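import Pool.Agent.FAP.Fun

/-!
# Amenability of discrete subgroups of the unitary group of a tracial star algebra:
groups with fast approximation by finite-dimensional star subalgebras
-/

set_option autoImplicit false

namespace Pool.Agent.Results.MP_6baeac_an.FastApproximation

open Pool.Agent.FAP Pool.Agent.JM

universe u

/-- Let `M` be a star algebra of bounded operators with a unit trace vector `Ω` and `Γ` a group of
unitaries of `M` which is discrete for the norm `‖x‖₂ = ‖x Ω‖`. If finite subsets of `Γ` can be
approximated by finite-dimensional star subalgebras `N` of `M` up to `o(1 / √dim N)` (and `Ω` is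
separating), or by unital completely positive maps of finite rank, then `Γ` is amenable. -/
theorem result (H : Type u) [NormedAddCommGroup H] [InnerProductSpace ℂ H] [CompleteSpace H]
    (M : Submodule ℂ (H → H)) (hM : StarAlg M) (Ω : H) (htr : Tracial M Ω)
    (Γ : Subgroup (Equiv.Perm H)) (hΓ : DiscreteIn M Ω Γ) :
    ((∀ x ∈ M, x Ω = 0 → x = 0) → SubalgebraApprox M Ω Γ → Amenable Γ) ∧
      (UCPApprox M Ω Γ → Amenable Γ) :=
  ⟨fun hs h => amenable_of_sub hM htr hs hΓ h, fun h => amenable_of_ucp hM htr hΓ h⟩

end Pool.Agent.Results.MP_6baeac_an.FastApproximation
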