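import Pool.Agent.JM.Final

/-!
# Amenability of discrete subgroups of the unitary group of the hyperfinite factor:
normalising unitaries with finite crossing
-/

set_option autoImplicit false

namespace Pool.Agent.Results.MP_6baeac_an.FiniteCrossing

open MeasureTheory Pool.Agent.JM

universe u

/-- Let `T` be an ergodic automorphism of a probability space and `R = L^∞(X) ⋊ ℤ`. A discrete
subgroup of `U(R)`, all of whose elements normalise `L^∞(X)` and have finite crossing with respect
to the order of the orbits of `T`, is amenable. Finite crossing holds if the displacement is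
integrable. -/
theorem result :
    (∀ (X : Type u) [MeasurableSpace X] (μ : Measure X) [IsProbabilityMeasure μ] (T : X ≃ᵐ X),
      Ergodic T μ →
      ∀ Γ : Subgroup (Equiv.Perm (HS μ)), (∀ u ∈ Γ, InFactor μ T u) →
        (∀ u ∈ Γ, ∃ (b : X → ℤ) (f : X → ℂ), NormalForm μ T u b f ∧ FinCross μ T b) →
        (∃ ε : ℝ, 0 < ε ∧ ∀ u ∈ Γ, u ≠ 1 → ε ≤ twoDist μ u) → Amenable Γ) ∧
    (∀ (X : Type u) [MeasurableSpace X] (μ : Measure X) [IsProbabilityMeasure μ] (T : X ≃ᵐ X),
      Ergodic T μ → ∀ b : X → ℤ, Measurable b → Integrable (fun x => (b x : ℝ)) μ →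
        FinCross μ T b) :=
  ⟨fun _ _ μ _ T hT Γ _ hΓ hdisc => amenable_of_discrete μ T hT Γ hΓ hdisc,
    fun _ _ _ _ _ hT _ hb hint => finCross_of_integrable hT.toMeasurePreserving hb hint⟩

end Pool.Agent.Results.MP_6baeac_an.FiniteCrossing
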