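import Pool.Agent.ZAR.Fun2

/-!
# Amenability of subgroups of the unitary group of the hyperfinite factor:
groups with a summable polynomial in the coefficients
-/

set_option autoImplicit false

namespace Pool.Agent.Results.MP_6baeac_an.SummableCoefficient

open Pool.Agent.FAP Pool.Agent.ZAR Pool.Agent.JM

universe u

/-- Let `M` be a star algebra of bounded operators with a separating unit trace vector `Ω`,
`τ(x) = ⟪Ω, x Ω⟫`, and `Γ` a group of unitaries of `M` which is approximable by matrix units of
`M` in the norm `‖x Ω‖`. If the values at the elements of `Γ` of some polynomial in the numbers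
`τ(x i u)` and their conjugates, `x i ∈ M`, are not all zero and some power of their absolute
values is summable, then `Γ` is amenable. -/
theorem result (H : Type u) [NormedAddCommGroup H] [InnerProductSpace ℂ H] [CompleteSpace H]
    (M : Submodule ℂ (H → H)) (hM : StarAlg M) (Ω : H) (htr : Tracial M Ω)
    (hs : ∀ x ∈ M, x Ω = 0 → x = 0) (Γ : Subgroup (Equiv.Perm H)) (hΓ : UnitariesIn M Γ)
    (hF : MatrixApprox M Ω Γ) (r : ℕ) (x : Fin r → H → H) (hx : ∀ i, x i ∈ M)
    (P : MvPolynomial (Fin r ⊕ Fin r) ℂ) (p : ℕ) (h0 : ∃ u ∈ Γ, polyVal Ω x P u ≠ 0)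
    (hp : Summable fun u : Γ => ‖polyVal Ω x P (u : Equiv.Perm H)‖ ^ p) : Amenable Γ :=
  amenable_of_poly hM htr hs hΓ hF x hx P p h0 hp

end Pool.Agent.Results.MP_6baeac_an.SummableCoefficient
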