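import Pool.Agent.ZAR.Fun

/-!
# Amenability of discrete subgroups of the unitary group of the hyperfinite factor:
groups which generate a factor and have a gap in the absolute values of the trace
-/

set_option autoImplicit false

namespace Pool.Agent.Results.MP_6baeac_an.TraceGap

open Pool.Agent.FAP Pool.Agent.ZAR Pool.Agent.JM

universe u

/-- Let `M` be a von Neumann algebra with a separating unit trace vector `Ω`, and `Γ` a group of
unitaries of `M` which is discrete for the norm `‖x‖₂ = ‖x Ω‖`, approximable by matrix units of
`M`, and generates a factor. Let `V` be a finite-dimensional space of vectors containing `Ω`. If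
`0` is isolated among the norms of the projections of the vectors `u Ω`, `u ∈ Γ`, on `V` (for
`V = ℂ Ω` these are the numbers `|τ(u)|`), then `Γ` is amenable. -/
theorem result (H : Type u) [NormedAddCommGroup H] [InnerProductSpace ℂ H] [CompleteSpace H]
    (M : Submodule ℂ (H → H)) (hM : StarAlg M) (hM' : Bicomm M) (Ω : H) (htr : Tracial M Ω)
    (hs : ∀ x ∈ M, x Ω = 0 → x = 0) (Γ : Subgroup (Equiv.Perm H)) (hΓ : DiscreteIn M Ω Γ)
    (hF : MatrixApprox M Ω Γ) (hfac : Factorial Γ) (V : Submodule ℂ H)
    (hfin : FiniteDimensional ℂ V) (hV : Ω ∈ V) (hg : Gap V Ω Γ) : Amenable Γ :=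
  amenable_of_gap hM hM' htr hs hΓ hF hfac V hV hg

end Pool.Agent.Results.MP_6baeac_an.TraceGap
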